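import Pool.Agent.K4H58.XK.Spec

open Finset

namespace Pool.Agent.K4H58.XK

/-- a large independent set in a graph of bounded degree -/
theorem indep_large {ι : Type} [Fintype ι] [DecidableEq ι] (R : ι → ι → Prop)
    (hs : ∀ i j, R i j → R j i) (d : ℕ) (hd : ∀ t, ∀ F : Finset ι, (∀ i ∈ F, R t i) → F.card ≤ d) :
    ∃ S : Finset ι, (∀ s ∈ S, ∀ t ∈ S, s ≠ t → ¬ R s t) ∧ Fintype.card ι ≤ S.card * (d + 1) := by
  classical
  let I : Finset (Finset ι) := univ.filter fun S => ∀ s ∈ S, ∀ t ∈ S, s ≠ t → ¬ R s t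
  have hI : I.Nonempty := ⟨∅, by simp [I]⟩
  obtain ⟨S, hS, hmax⟩ := exists_max_image I card hI
  have hSi : ∀ s ∈ S, ∀ t ∈ S, s ≠ t → ¬ R s t := by simpa [I] using hS
  refine ⟨S, hSi, ?_⟩
  have hcov : (univ : Finset ι) ⊆ S.biUnion fun s => insert s (univ.filter fun i => R s i) := by
    intro i _
    by_cases hi : i ∈ S
    · exact mem_biUnion.2 ⟨i, hi, mem_insert_self _ _⟩
    by_contra hcon
    have hno : ∀ s ∈ S, ¬ R s i := by
      intro s hs' hR
      exact hcon (mem_biUnion.2 ⟨s, hs', mem_insert_of_mem (by simpa using hR)⟩)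
    have hin : insert i S ∈ I := by
      simp only [I, mem_filter, mem_univ, true_and]
      intro s hs' t ht hst
      rcases mem_insert.1 hs' with rfl | hs1
      · rcases mem_insert.1 ht with rfl | ht1
        · exact absurd rfl hst
        · exact fun h => hno t ht1 (hs _ _ h)
      · rcases mem_insert.1 ht with rfl | ht1
        · exact hno s hs1
        · exact hSi s hs1 t ht1 hst
    have := hmax _ hin
    rw [card_insert_of_notMem hi] at this
    omega
  calc Fintype.card ι = (univ : Finset ι).card := rfl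
    _ ≤ (S.biUnion fun s => insert s (univ.filter fun i => R s i)).card := card_le_card hcov
    _ ≤ S.card * (d + 1) := by
      refine card_biUnion_le_card_mul _ _ _ fun s _ => ?_
      refine (card_insert_le _ _).trans ?_
      have := hd s (univ.filter fun i => R s i) (fun i hi => by simpa using hi)
      omega

/-- PIECE H3 -/
theorem isolated_of_pairs (pairs_bound : ∀ (a b : ℕ), ∃ T : ℕ, ∀ {κ β : Type} [Fintype κ] [DecidableEq κ]
    [DecidableEq β]
    (A B : κ → Finset β), (∀ s, (A s).card ≤ a) → (∀ s, (B s).card ≤ b) →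
    (∀ s, Disjoint (A s) (B s)) → (∀ s t, s ≠ t → ¬ Disjoint (A s) (B t)) → Fintype.card κ ≤ T)
    {k : ℕ} (hk : 1 ≤ k) : ∃ N0 : ℕ, ∀ {ι α β : Type} [Fintype ι] [DecidableEq ι]
    [DecidableEq α] [DecidableEq β] (X : ι → Finset α) (Y : ι → Finset β), (∀ i, (X i).card = k) →
    (∀ i, (Y i).card = k) → (∀ i j, i ≠ j → (Disjoint (X i) (X j) ↔ ¬ Disjoint (Y i) (Y j))) →
    (∀ C : Finset ι, (∀ i ∈ C, ∀ j ∈ C, i ≠ j → Disjoint (Y i) (Y j)) → C.card ≤ 2 * k) →
    N0 ≤ Fintype.card ι → ∃ i0, ∀ i, ¬ Disjoint (Y i) (Y i0) := by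
  obtain ⟨T, hT⟩ := pairs_bound k k
  refine ⟨T * (k * (2 * k) + (k * (2 * k)) * (k * (2 * k)) + 1) + 1, ?_⟩
  intro ι α β _ _ _ _ X Y hX hY hXY hC hN
  classical
  by_contra hcon
  push Not at hcon
  choose f hf using hcon
  have hYne : ∀ i, ¬ Disjoint (Y i) (Y i) := by
    intro i h
    rw [disjoint_self, bot_eq_empty] at h
    have := hY i
    rw [h, card_empty] at this
    omega
  -- the number of `j` with `Y j` disjoint from `Y i`
  have hD : ∀ i, ∀ F : Finset ι, (∀ j ∈ F, Disjoint (Y j) (Y i)) → F.card ≤ k * (2 * k) := by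
    intro i F hF
    have hsub : F ⊆ (X i).biUnion fun x => F.filter fun j => x ∈ X j := by
      intro j hj
      have hji : j ≠ i := by
        rintro rfl
        exact hYne _ (hF _ hj)
      have h1 : ¬ Disjoint (X j) (X i) := fun h => (hXY j i hji).1 h (hF j hj)
      obtain ⟨x, hx1, hx2⟩ := not_disjoint_iff.1 h1
      exact mem_biUnion.2 ⟨x, hx2, mem_filter.2 ⟨hj, hx1⟩⟩
    have h2 : ((X i).biUnion fun x => F.filter fun j => x ∈ X j).card ≤ (X i).card * (2 * k) := by
      refine card_biUnion_le_card_mul _ _ _ fun x _ => hC _ fun a ha b hb hab => ?_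
      by_contra hnd
      have h3 := (hXY a b hab).2 hnd
      exact (disjoint_left.1 h3 (mem_filter.1 ha).2) (mem_filter.1 hb).2
    rw [hX] at h2
    exact (card_le_card hsub).trans h2
  -- conflicts
  let R : ι → ι → Prop := fun s t => Disjoint (Y s) (Y (f t)) ∨ Disjoint (Y t) (Y (f s))
  obtain ⟨S, hS, hcard⟩ := indep_large R (fun i j h => h.symm)
    (k * (2 * k) + (k * (2 * k)) * (k * (2 * k))) (by
      intro t F hF
      have h1 : F ⊆ (F.filter fun i => Disjoint (Y i) (Y (f t))) ∪
          (F.filter fun i => Disjoint (Y t) (Y (f i))) := by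
        intro i hi
        rcases hF i hi with h | h
        · exact mem_union_right _ (mem_filter.2 ⟨hi, h⟩)
        · exact mem_union_left _ (mem_filter.2 ⟨hi, h⟩)
      refine (card_le_card h1).trans ((card_union_le _ _).trans (Nat.add_le_add ?_ ?_))
      · exact hD (f t) _ fun j hj => (mem_filter.1 hj).2
      · -- `f i` is one of the at most `2k²` indices with `Y` disjoint from `Y t`
        set F' := F.filter fun i => Disjoint (Y t) (Y (f i)) with hF'
        have h2 : F' ⊆ (F'.image f).biUnion fun u => F'.filter fun i => f i = u := by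
          intro i hi
          exact mem_biUnion.2 ⟨f i, mem_image_of_mem _ hi, mem_filter.2 ⟨hi, rfl⟩⟩
        have h3 : (F'.image f).card ≤ k * (2 * k) := by
          refine hD t _ fun j hj => ?_
          obtain ⟨i, hi, rfl⟩ := mem_image.1 hj
          exact ((mem_filter.1 hi).2).symm
        have h4 : ((F'.image f).biUnion fun u => F'.filter fun i => f i = u).card ≤
            (F'.image f).card * (k * (2 * k)) := by
          refine card_biUnion_le_card_mul _ _ _ fun u _ => hD u _ fun j hj => ?_
          have h5 := (mem_filter.1 hj).2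
          rw [← h5]
          exact (hf j).symm
        exact (card_le_card h2).trans (h4.trans (Nat.mul_le_mul_right _ h3)))
  have hST : S.card ≤ T := by
    have h1 := hT (κ := {s // s ∈ S}) (fun s => Y s.1) (fun s => Y (f s.1)) (fun s => (hY _).le)
      (fun s => (hY _).le) (fun s => (hf s.1).symm) (fun s t hst => ?_)
    · rwa [Fintype.card_coe] at h1
    · have h2 := hS s.1 s.2 t.1 t.2 fun h => hst (Subtype.ext h)
      intro h3
      exact h2 (Or.inl h3)
  have := hcard.trans (Nat.mul_le_mul_right _ hST)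
  omega

end Pool.Agent.K4H58.XK
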